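import Pool.Agent.H24.Lib.R_seed8.W812.RB.Stm

set_option autoImplicit false

namespace Pool.Agent.W346.RB
open Pool.Agent.W812.RB Finset Filter Topology

theorem primes : PrimesStm := by
  have hlo : ∀ᶠ x : ℝ in atTop, ‖Real.log x‖ ≤ (1 / 100 : ℝ) * ‖x‖ :=
    Real.isLittleO_log_id_atTop.bound (by norm_num)
  have hev : ∀ᶠ X : ℕ in atTop, 3 ≤ Real.log X ∧ Real.log X ≤ (1 / 100 : ℝ) * X ∧
      100 ≤ (X : ℝ) := by
    have h1 : Tendsto (fun X : ℕ => Real.log X) atTop atTop :=
      Real.tendsto_log_atTop.comp tendsto_natCast_atTop_atTop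
    have h2 := tendsto_natCast_atTop_atTop (R := ℝ).eventually hlo
    have h3 := (tendsto_natCast_atTop_atTop (R := ℝ)).eventually_ge_atTop 100
    filter_upwards [h1.eventually_ge_atTop 3, h2, h3] with X ha hb hc
    refine ⟨ha, ?_, hc⟩
    rw [Real.norm_of_nonneg (by linarith), Real.norm_of_nonneg (by linarith)] at hb
    exact hb
  obtain ⟨X₀, hX₀⟩ := eventually_atTop.1 hev
  refine ⟨X₀, fun X hX D hD => ?_⟩
  obtain ⟨hl3, hlX, hX100⟩ := hX₀ X hX
  have hlpos : 0 < Real.log X := by linarith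
  have hXpos : (0 : ℝ) < X := by linarith
  -- the primes
  let P : Finset ℕ := (range (X + 1)).filter Nat.Prime
  let P1 : Finset ℕ := P.filter fun q => (X : ℝ) / (2 * Real.log X) < q
  let P2 : Finset ℕ := P.filter fun q => ¬ (X : ℝ) / (2 * Real.log X) < q
  have hPc : P.card = Nat.primeCounting X := by
    rw [Nat.primeCounting, Nat.primeCounting', Nat.count_eq_card_filter_range]
  have hP2c : (P2.card : ℝ) ≤ (X : ℝ) / (2 * Real.log X) + 1 := by
    have hsub : P2 ⊆ range (⌊(X : ℝ) / (2 * Real.log X)⌋₊ + 1) := by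
      intro q hq
      have := (Finset.mem_filter.1 hq).2
      rw [Finset.mem_range, Nat.lt_succ_iff]
      exact Nat.le_floor (not_lt.1 this)
    have h1 : P2.card ≤ ⌊(X : ℝ) / (2 * Real.log X)⌋₊ + 1 := by
      simpa using Finset.card_le_card hsub
    have h2 : (⌊(X : ℝ) / (2 * Real.log X)⌋₊ : ℝ) ≤ (X : ℝ) / (2 * Real.log X) :=
      Nat.floor_le (by positivity)
    have h3 : (P2.card : ℝ) ≤ (⌊(X : ℝ) / (2 * Real.log X)⌋₊ : ℝ) + 1 := by exact_mod_cast h1
    linarith
  have hsum : P1.card + P2.card = P.card := Finset.card_filter_add_card_filter_not _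
  have hpi := Chebyshev.pi_ge X
  have hD1 : (D : ℝ) ≤ P1.card := by
    have h1 : (P1.card : ℝ) + P2.card = Nat.primeCounting X := by
      rw [← hPc]; exact_mod_cast hsum
    have hlog2 : (0.69 : ℝ) ≤ Real.log 2 := by have := Real.log_two_gt_d9; linarith
    have hl1 : Real.log ((X : ℝ) + 1) ≤ 2 * Real.log X := by
      rw [← Real.log_rpow hXpos]
      refine Real.log_le_log (by linarith) ?_
      rw [show (2 : ℝ) = ((2 : ℕ) : ℝ) by norm_num, Real.rpow_natCast]
      nlinarith
    have h2 : (X : ℝ) * 0.69 / Real.log X - 2 ≤ (X * Real.log 2 - Real.log (X + 1)) / Real.log X := by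
      rw [div_sub' hlpos.ne', div_le_div_iff_of_pos_right hlpos]
      nlinarith
    have h3 : (X : ℝ) / (2 * Real.log X) = (X / Real.log X) / 2 := by
      field_simp
    have h4 : (X : ℝ) / (10 * Real.log X) = (X / Real.log X) / 10 := by
      field_simp
    have h5 : (X : ℝ) * 0.69 / Real.log X = 0.69 * (X / Real.log X) := by
      field_simp
    have h6 : 100 ≤ (X : ℝ) / Real.log X := by
      rw [le_div_iff₀ hlpos]; linarith
    rw [h3] at hP2c
    rw [h4] at hD
    rw [h5] at h2
    linarith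
  have hD2 : D ≤ P1.card := by exact_mod_cast hD1
  let e := P1.orderEmbOfCardLe hD2
  have he : ∀ i, e i ∈ P1 := fun i => P1.orderEmbOfCardLe_mem hD2 i
  refine ⟨fun i => if h : i < D then e ⟨i, h⟩ else 0, ?_, ?_⟩
  · intro i hi
    simp only [hi, dif_pos]
    have h1 := he ⟨i, hi⟩
    have h2 := Finset.mem_filter.1 h1
    have h3 := Finset.mem_filter.1 h2.1
    refine ⟨h3.2, ?_, h2.2, ?_⟩
    · refine h3.2.odd_of_ne_two ?_
      intro h
      have h4 := h2.2
      rw [h] at h4
      have h5 : 100 ≤ (X : ℝ) / Real.log X := by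
        rw [le_div_iff₀ hlpos]; linarith
      have h6 : (X : ℝ) / (2 * Real.log X) = (X / Real.log X) / 2 := by
        field_simp
      rw [h6] at h4
      push_cast at h4
      linarith
    · exact Nat.lt_succ_iff.1 (Finset.mem_range.1 h3.1)
  · intro i hi j hj hij h
    simp only [hi, hj, dif_pos] at h
    have := e.injective h
    exact hij (by simpa using this)

end Pool.Agent.W346.RB
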